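import Mathlib

set_option autoImplicit false

namespace Pool.Agent.Results.MP_209919_co.NonplanarRationalSets

open Set Module

/-! ### Sufficiency: the circle -/

/-- Cosine of the parameter angle. -/
noncomputable def cf (K s : ℝ) : ℝ := (K - s ^ 2) / (K + s ^ 2)

/-- Scaled sine of the parameter angle. -/
noncomputable def yf (K s : ℝ) : ℝ := 2 * s * K / (K + s ^ 2)

theorem cf_yf (K s : ℝ) (hK : 0 < K) : K * cf K s ^ 2 + yf K s ^ 2 = K := by
  unfold cf yf
  have : K + s ^ 2 ≠ 0 := by positivity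
  field_simp
  ring

theorem two_dim (V : Type) [NormedAddCommGroup V] [InnerProductSpace ℝ V]
    (hV : finrank ℝ V = 2) (ρ : ℝ) (hρ : 0 < ρ) (K : ℚ) (hK : ρ ^ 2 = K) :
    ∃ X : Set V, X.Infinite ∧ (∀ x ∈ X, ‖x‖ = ρ) ∧ (∀ x ∈ X, ∀ y ∈ X, ∃ q : ℚ, ‖x - y‖ = q) ∧
      ∀ (v : V) (a : ℝ), (∀ x ∈ X, inner ℝ v x = a) → v = 0 := by
  have hfd : FiniteDimensional ℝ V := FiniteDimensional.of_finrank_pos (by omega)
  let b : OrthonormalBasis (Fin 2) ℝ V := (stdOrthonormalBasis ℝ V).reindex (finCongr hV)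
  set e1 := b 0 with he1
  set e2 := b 1 with he2
  have h11 : inner ℝ e1 e1 = (1 : ℝ) := by
    rw [real_inner_self_eq_norm_sq, b.norm_eq_one]; norm_num
  have h22 : inner ℝ e2 e2 = (1 : ℝ) := by
    rw [real_inner_self_eq_norm_sq, b.norm_eq_one]; norm_num
  have h12 : inner ℝ e1 e2 = (0 : ℝ) := b.inner_eq_zero (by decide)
  have h21 : inner ℝ e2 e1 = (0 : ℝ) := b.inner_eq_zero (by decide)
  have hnorm : ∀ x y : ℝ, ‖x • e1 + y • e2‖ ^ 2 = x ^ 2 + y ^ 2 := by
    intro x y
    rw [← real_inner_self_eq_norm_sq]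
    simp only [inner_add_left, inner_add_right, real_inner_smul_left, real_inner_smul_right, h11,
      h22, h12, h21]
    ring
  have hKpos : (0 : ℝ) < K := by rw [← hK]; positivity
  let P : ℕ → V := fun s =>
    (ρ * (2 * cf K s ^ 2 - 1)) • e1 + (2 * cf K s * yf K s) • e2
  have hdist : ∀ s t : ℕ, ‖P s - P t‖ ^ 2 =
      (2 * (yf K s * cf K t - cf K s * yf K t)) ^ 2 := by
    intro s t
    have h1 : P s - P t = (ρ * (2 * cf K s ^ 2 - 1) - ρ * (2 * cf K t ^ 2 - 1)) • e1 +
        (2 * cf K s * yf K s - 2 * cf K t * yf K t) • e2 := by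
      simp only [P, sub_smul]
      abel
    rw [h1, hnorm]
    have ha := cf_yf K s hKpos
    have hb := cf_yf K t hKpos
    have h2 : (ρ * (2 * cf K s ^ 2 - 1) - ρ * (2 * cf K t ^ 2 - 1)) ^ 2 =
        K * (2 * cf K s ^ 2 - 2 * cf K t ^ 2) ^ 2 := by
      rw [← hK]; ring
    rw [h2]
    linear_combination 4 * (cf K s ^ 2 - cf K t ^ 2) * (ha - hb)
  have hrat : ∀ s t : ℕ, ∃ q : ℚ, ‖P s - P t‖ = q := by
    intro s t
    have h1 : ‖P s - P t‖ = |2 * (yf K s * cf K t - cf K s * yf K t)| := by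
      rw [← abs_of_nonneg (norm_nonneg (P s - P t))]
      exact (sq_eq_sq_iff_abs_eq_abs _ _).mp (hdist s t)
    refine ⟨|2 * ((2 * s * K / (K + s ^ 2)) * ((K - t ^ 2) / (K + t ^ 2)) -
      ((K - s ^ 2) / (K + s ^ 2)) * (2 * t * K / (K + t ^ 2)))|, ?_⟩
    rw [h1]
    unfold cf yf
    push_cast
    rfl
  have hinj : Function.Injective P := by
    intro s t hst
    have h1 := hdist s t
    rw [hst, sub_self, norm_zero] at h1
    have h2 : yf K s * cf K t - cf K s * yf K t = 0 := by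
      have h3 : (2 * (yf K s * cf K t - cf K s * yf K t)) ^ 2 = 0 := by
        rw [← h1]; norm_num
      have h4 := pow_eq_zero_iff (two_ne_zero) |>.mp h3
      linarith
    unfold cf yf at h2
    have hs : (0 : ℝ) < K + (s : ℝ) ^ 2 := by positivity
    have ht : (0 : ℝ) < K + (t : ℝ) ^ 2 := by positivity
    field_simp at h2
    have h5 : ((s : ℝ) - t) * (K + s * t) = 0 := by
      have hK2 : (2 * (K : ℝ)) ≠ 0 := by positivity
      have e : 2 * (K : ℝ) * (((s : ℝ) - t) * (K + s * t)) = 0 := by linear_combination h2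
      exact (mul_eq_zero.mp e).resolve_left hK2
    rcases mul_eq_zero.mp h5 with h6 | h6
    · have : (s : ℝ) = t := by linarith
      exact_mod_cast this
    · exfalso
      have : (0 : ℝ) ≤ s * t := by positivity
      linarith
  refine ⟨range P, infinite_range_of_injective hinj, ?_, ?_, ?_⟩
  · rintro _ ⟨s, rfl⟩
    have h1 : ‖P s‖ ^ 2 = ρ ^ 2 := by
      simp only [P]
      rw [hnorm]
      have ha := cf_yf K s hKpos
      have : (ρ * (2 * cf K s ^ 2 - 1)) ^ 2 = K * (2 * cf K s ^ 2 - 1) ^ 2 := by rw [← hK]; ring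
      rw [this, hK]
      linear_combination (4 * cf K s ^ 2) * ha
    exact (pow_left_inj₀ (norm_nonneg _) hρ.le two_ne_zero).mp h1
  · rintro _ ⟨s, rfl⟩ _ ⟨t, rfl⟩
    exact hrat s t
  · intro v a hva
    have hv : v = (inner ℝ v e1) • e1 + (inner ℝ v e2) • e2 := by
      have := b.sum_repr' v
      rw [Fin.sum_univ_two] at this
      rw [real_inner_comm e1 v, real_inner_comm e2 v]
      exact this.symm
    set v1 := inner ℝ v e1 with hv1
    set v2 := inner ℝ v e2 with hv2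
    have hP : ∀ s : ℕ, v1 * (ρ * (2 * cf K s ^ 2 - 1)) + v2 * (2 * cf K s * yf K s) = a := by
      intro s
      have := hva (P s) ⟨s, rfl⟩
      simp only [P, inner_add_right, real_inner_smul_right] at this
      rw [← this]; ring
    have h0 := hP 0
    have h1 := hP 1
    have h2 := hP 2
    unfold cf yf at h0 h1 h2
    push_cast at h0 h1 h2
    have hK1 : (K : ℝ) + 1 ≠ 0 := by positivity
    have hK4 : (K : ℝ) + 4 ≠ 0 := by positivity
    have hKne : (K : ℝ) ≠ 0 := hKpos.ne'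
    have h0' : v1 * ρ = a := by
      have : ((K : ℝ) - 0 ^ 2) / (K + 0 ^ 2) = 1 := by
        rw [zero_pow two_ne_zero, sub_zero, add_zero, div_self hKne]
      rw [this] at h0
      rw [← h0]; ring
    have k1 : v2 * (K - 1) = 2 * (v1 * ρ) := by
      have e : (v1 * (ρ * (2 * (((K : ℝ) - 1 ^ 2) / (K + 1 ^ 2)) ^ 2 - 1)) +
          v2 * (2 * (((K : ℝ) - 1 ^ 2) / (K + 1 ^ 2)) * (2 * 1 * K / (K + 1 ^ 2))) - v1 * ρ) *
          (K + 1) ^ 2 = 4 * K * (v2 * (K - 1) - 2 * (v1 * ρ)) := by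
        field_simp
        ring
      rw [h1, h0', sub_self, zero_mul] at e
      have : (4 * (K : ℝ)) ≠ 0 := by positivity
      have := (mul_eq_zero.mp e.symm).resolve_left this
      linarith
    have k2 : v2 * (K - 4) = 4 * (v1 * ρ) := by
      have e : (v1 * (ρ * (2 * (((K : ℝ) - 2 ^ 2) / (K + 2 ^ 2)) ^ 2 - 1)) +
          v2 * (2 * (((K : ℝ) - 2 ^ 2) / (K + 2 ^ 2)) * (2 * 2 * K / (K + 2 ^ 2))) - v1 * ρ) *
          (K + 4) ^ 2 = 8 * K * (v2 * (K - 4) - 4 * (v1 * ρ)) := by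
        field_simp
        ring
      rw [h2, h0', sub_self, zero_mul] at e
      have : (8 * (K : ℝ)) ≠ 0 := by positivity
      have := (mul_eq_zero.mp e.symm).resolve_left this
      linarith
    have k3 : v2 * (K + 2) = 0 := by linarith
    have hv20 : v2 = 0 := (mul_eq_zero.mp k3).resolve_right (by positivity)
    have hv10 : v1 = 0 := by
      rw [hv20] at k1
      have : v1 * ρ = 0 := by linarith
      exact (mul_eq_zero.mp this).resolve_right hρ.ne'
    rw [hv, hv10, hv20]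
    simp

/-! ### Sufficiency: induction on the dimension -/

theorem exists_set (n : ℕ) : ∀ (V : Type) [NormedAddCommGroup V] [InnerProductSpace ℝ V],
    finrank ℝ V = n + 2 → ∀ (ρ : ℝ), 0 < ρ → ∀ K : ℚ, ρ ^ 2 = K →
    ∃ X : Set V, X.Infinite ∧ (∀ x ∈ X, ‖x‖ = ρ) ∧ (∀ x ∈ X, ∀ y ∈ X, ∃ q : ℚ, ‖x - y‖ = q) ∧
      ∀ (v : V) (a : ℝ), (∀ x ∈ X, inner ℝ v x = a) → v = 0 := by
  induction n with
  | zero =>
    intro V _ _ hV ρ hρ K hK
    exact two_dim V hV ρ hρ K hK
  | succ n ih =>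
    intro V _ _ hV ρ hρ K hK
    have hfd : FiniteDimensional ℝ V := FiniteDimensional.of_finrank_pos (by omega)
    have hnt : Nontrivial V := Module.nontrivial_of_finrank_pos (R := ℝ) (by omega)
    obtain ⟨e, he⟩ := exists_norm_eq V (zero_le_one : (0 : ℝ) ≤ 1)
    have hee : inner ℝ e e = (1 : ℝ) := by rw [real_inner_self_eq_norm_sq, he]; norm_num
    have hene : e ≠ 0 := by
      intro h; rw [h, norm_zero] at he; exact zero_ne_one he
    have hW : finrank ℝ (ℝ ∙ e)ᗮ = n + 2 := by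
      have := Submodule.finrank_add_finrank_orthogonal (ℝ ∙ e)
      rw [finrank_span_singleton hene] at this
      omega
    obtain ⟨r, hr0, hr1⟩ := exists_rat_btwn (show (0 : ℝ) < 2 * ρ by positivity)
    have hr0' : (0 : ℝ) < r := hr0
    have hKpos : (0 : ℝ) < K := by rw [← hK]; positivity
    set h : ℝ := r ^ 2 / (2 * ρ) with hh
    have h2ρh : 2 * ρ * h = r ^ 2 := by rw [hh]; field_simp
    have hhpos : 0 < h := by positivity
    have hhlt : h < r := by
      rw [hh, div_lt_iff₀ (by positivity)]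
      nlinarith
    have hsq : 0 < (r : ℝ) ^ 2 - h ^ 2 := by nlinarith
    set ρ' : ℝ := Real.sqrt (r ^ 2 - h ^ 2) with hρ'
    have hρ'pos : 0 < ρ' := Real.sqrt_pos.mpr hsq
    have hρ'sq : ρ' ^ 2 = r ^ 2 - h ^ 2 := Real.sq_sqrt hsq.le
    have hh2 : h ^ 2 = (r : ℝ) ^ 4 / (4 * K) := by
      rw [← hK, hh]; field_simp; ring
    obtain ⟨X, hXinf, hXn, hXr, hXnp⟩ := ih (ℝ ∙ e)ᗮ hW ρ' hρ'pos (r ^ 2 - r ^ 4 / (4 * K)) (by
      rw [hρ'sq, hh2]; push_cast; ring)
    have horth : ∀ w : (ℝ ∙ e)ᗮ, inner ℝ (w : V) e = (0 : ℝ) := fun w =>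
      Submodule.inner_left_of_mem_orthogonal (Submodule.mem_span_singleton_self e) w.2
    have horth' : ∀ w : (ℝ ∙ e)ᗮ, inner ℝ e (w : V) = (0 : ℝ) := fun w => by
      rw [real_inner_comm]; exact horth w
    have hnorm : ∀ (w : (ℝ ∙ e)ᗮ) (t : ℝ), ‖(w : V) + t • e‖ ^ 2 = ‖w‖ ^ 2 + t ^ 2 := by
      intro w t
      rw [← real_inner_self_eq_norm_sq]
      simp only [inner_add_left, inner_add_right, real_inner_smul_left, real_inner_smul_right,
        horth w, horth' w, hee]
      rw [real_inner_self_eq_norm_sq]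
      simp only [Submodule.coe_norm]
      ring
    let f : (ℝ ∙ e)ᗮ → V := fun w => (w : V) + (ρ - h) • e
    have hfinj : Function.Injective f := by
      intro w w' hww
      have : (w : V) = w' := by simpa [f] using hww
      exact Subtype.ext this
    have hpole : ∀ w ∈ X, ‖f w - ρ • e‖ = r := by
      intro w hw
      have h1 : f w - ρ • e = (w : V) + (-h) • e := by
        simp only [f, sub_smul, neg_smul]; abel
      have h2 : ‖f w - ρ • e‖ ^ 2 = (r : ℝ) ^ 2 := by
        rw [h1, hnorm, hXn w hw, hρ'sq]; ring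
      exact (pow_left_inj₀ (norm_nonneg _) hr0'.le two_ne_zero).mp h2
    refine ⟨f '' X ∪ {ρ • e}, ?_, ?_, ?_, ?_⟩
    · exact (hXinf.image hfinj.injOn).mono subset_union_left
    · rintro x (⟨w, hw, rfl⟩ | hx)
      · have h2 : ‖f w‖ ^ 2 = ρ ^ 2 := by
          simp only [f]
          rw [hnorm, hXn w hw, hρ'sq]
          linear_combination -h2ρh
        exact (pow_left_inj₀ (norm_nonneg _) hρ.le two_ne_zero).mp h2
      · rw [mem_singleton_iff.mp hx, norm_smul, he, mul_one, Real.norm_of_nonneg hρ.le]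
    · rintro x (⟨w, hw, rfl⟩ | hx) y (⟨w', hw', rfl⟩ | hy)
      · obtain ⟨q, hq⟩ := hXr w hw w' hw'
        refine ⟨q, ?_⟩
        rw [← hq]
        have : f w - f w' = ((w - w' : (ℝ ∙ e)ᗮ) : V) := by simp [f]
        rw [this]; rfl
      · rw [mem_singleton_iff.mp hy]
        exact ⟨r, hpole w hw⟩
      · rw [mem_singleton_iff.mp hx, norm_sub_rev]
        exact ⟨r, hpole w' hw'⟩
      · rw [mem_singleton_iff.mp hx, mem_singleton_iff.mp hy]
        exact ⟨0, by simp⟩
    · intro v a hva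
      -- decompose `v`
      set β : ℝ := inner ℝ v e with hβ
      have hwmem : v - β • e ∈ (ℝ ∙ e)ᗮ := by
        rw [Submodule.mem_orthogonal_singleton_iff_inner_left, inner_sub_left,
          real_inner_smul_left, hee]
        simp [hβ]
      set wv : (ℝ ∙ e)ᗮ := ⟨v - β • e, hwmem⟩ with hwv
      have hve : v = (wv : V) + β • e := by simp [hwv]
      have h1 : ∀ x ∈ X, inner ℝ wv x = a - β * (ρ - h) := by
        intro x hx
        have h2 := hva (f x) (Or.inl ⟨x, hx, rfl⟩)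
        simp only [f, inner_add_right, real_inner_smul_right] at h2
        rw [← hβ] at h2
        have h3 : inner ℝ v (x : V) = inner ℝ wv x := by
          rw [hve, inner_add_left, real_inner_smul_left, horth' x]
          simp
        rw [h3] at h2
        linarith
      have hwv0 : wv = 0 := hXnp wv _ h1
      obtain ⟨x0, hx0⟩ := hXinf.nonempty
      have h2 := h1 x0 hx0
      rw [hwv0, inner_zero_left] at h2
      have h3 := hva (ρ • e) (Or.inr rfl)
      rw [real_inner_smul_right, ← hβ] at h3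
      have h4 : β * h = 0 := by linarith
      have hβ0 : β = 0 := (mul_eq_zero.mp h4).resolve_right hhpos.ne'
      rw [hve, hwv0, hβ0]
      simp

/-! ### Necessity -/

theorem rat_radius (V : Type) [NormedAddCommGroup V] [InnerProductSpace ℝ V]
    [FiniteDimensional ℝ V] (c : V) (ρ : ℝ) (X : Set V) (hne : X.Nonempty)
    (hX : ∀ x ∈ X, ‖x - c‖ = ρ) (hr : ∀ x ∈ X, ∀ y ∈ X, ∃ q : ℚ, ‖x - y‖ = q)
    (hnp : ∀ (v : V) (a : ℝ), (∀ x ∈ X, inner ℝ v x = a) → v = 0) : ∃ q : ℚ, ρ ^ 2 = q := by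
  classical
  obtain ⟨x0, hx0⟩ := hne
  set S : Set V := (fun x => x - x0) '' X with hS
  have hspan : Submodule.span ℝ S = ⊤ := by
    rw [← Submodule.orthogonal_eq_bot_iff, Submodule.eq_bot_iff]
    intro v hv
    apply hnp v (inner ℝ v x0)
    intro x hx
    have h1 : inner ℝ (x - x0) v = (0 : ℝ) :=
      (Submodule.mem_orthogonal _ _).mp hv _ (Submodule.subset_span ⟨x, hx, rfl⟩)
    rw [real_inner_comm, inner_sub_right] at h1
    linarith
  have hin : ∀ x ∈ S, ∀ y ∈ S, ∃ q : ℚ, inner ℝ x y = (q : ℝ) := by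
    rintro _ ⟨x, hx, rfl⟩ _ ⟨y, hy, rfl⟩
    obtain ⟨q1, h1⟩ := hr x hx x0 hx0
    obtain ⟨q2, h2⟩ := hr y hy x0 hx0
    obtain ⟨q3, h3⟩ := hr x hx y hy
    refine ⟨(q1 * q1 + q2 * q2 - q3 * q3) / 2, ?_⟩
    have h4 := real_inner_eq_norm_mul_self_add_norm_mul_self_sub_norm_sub_mul_self_div_two
      (x - x0) (y - x0)
    have h5 : x - x0 - (y - x0) = x - y := by abel
    rw [h5, h1, h2, h3] at h4
    simp only
    rw [h4]
    push_cast
    ring
  have hc : ∀ x ∈ S, ∃ q : ℚ, inner ℝ x (c - x0) = (q : ℝ) := by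
    rintro _ ⟨x, hx, rfl⟩
    obtain ⟨q1, h1⟩ := hr x hx x0 hx0
    refine ⟨q1 * q1 / 2, ?_⟩
    have h4 := real_inner_eq_norm_mul_self_add_norm_mul_self_sub_norm_sub_mul_self_div_two
      (x - x0) (c - x0)
    have h5 : x - x0 - (c - x0) = x - c := by abel
    have h6 : ‖c - x0‖ = ρ := by rw [norm_sub_rev]; exact hX x0 hx0
    rw [h5, h1, h6, hX x hx] at h4
    simp only
    rw [h4]
    push_cast
    ring
  obtain ⟨b, hbS, hbspan, hbli⟩ := exists_linearIndependent ℝ S
  have hbfin : b.Finite := hbli.setFinite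
  have : Fintype b := hbfin.fintype
  choose G hG using fun (i j : b) => hin i (hbS i.2) j (hbS j.2)
  choose g hg using fun (i : b) => hc i (hbS i.2)
  -- the rational Gram map
  let T : (b → ℚ) →ₗ[ℚ] (b → ℚ) := Matrix.mulVecLin (Matrix.of G)
  have hT : ∀ (μ : b → ℚ) (i : b), ((T μ i : ℚ) : ℝ) = inner ℝ (i : V) (∑ j, (μ j : ℝ) • (j : V)) := by
    intro μ i
    rw [inner_sum]
    simp only [T, Matrix.mulVecLin_apply, Matrix.mulVec, dotProduct, Matrix.of_apply]
    push_cast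
    refine Finset.sum_congr rfl fun j _ => ?_
    rw [real_inner_smul_right, hG i j]
    ring
  have hTinj : Function.Injective T := by
    rw [injective_iff_map_eq_zero]
    intro μ hμ
    have h1 : inner ℝ (∑ j : b, (μ j : ℝ) • (j : V)) (∑ j : b, (μ j : ℝ) • (j : V)) = (0 : ℝ) := by
      rw [sum_inner]
      refine Finset.sum_eq_zero fun i _ => ?_
      rw [real_inner_smul_left, ← hT μ i, hμ]
      simp
    have h2 : (∑ j : b, (μ j : ℝ) • (j : V)) = 0 := inner_self_eq_zero.mp h1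
    have h3 := (Fintype.linearIndependent_iff.mp hbli) (fun j => (μ j : ℝ)) h2
    funext i
    exact_mod_cast h3 i
  obtain ⟨l, hl⟩ := LinearMap.surjective_of_injective hTinj g
  have hu : c - x0 = ∑ j : b, (l j : ℝ) • (j : V) := by
    rw [← sub_eq_zero]
    have h1 : ∀ y ∈ Submodule.span ℝ (b : Set V),
        inner ℝ y (c - x0 - ∑ j : b, (l j : ℝ) • (j : V)) = (0 : ℝ) := by
      intro y hy
      induction hy using Submodule.span_induction with
      | mem y hy =>
        rw [inner_sub_right, hg ⟨y, hy⟩, ← hT l ⟨y, hy⟩, hl, sub_self]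
      | zero => exact inner_zero_left _
      | add y z _ _ h1 h2 => rw [inner_add_left, h1, h2, add_zero]
      | smul a y _ h1 => rw [real_inner_smul_left, h1, mul_zero]
    apply inner_self_eq_zero (𝕜 := ℝ).mp
    apply h1
    rw [hbspan, hspan]
    exact Submodule.mem_top
  have hfinal : ρ ^ 2 = ∑ j : b, (l j : ℝ) * (g j : ℝ) := by
    have h6 : ‖c - x0‖ = ρ := by rw [norm_sub_rev]; exact hX x0 hx0
    rw [← h6, ← real_inner_self_eq_norm_sq]
    nth_rewrite 1 [hu]
    rw [sum_inner]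
    refine Finset.sum_congr rfl fun j _ => ?_
    rw [real_inner_smul_left, hg j]
  refine ⟨∑ j : b, l j * g j, ?_⟩
  rw [hfinal]
  push_cast
  rfl

theorem two_le_dim (d : ℕ) (c : EuclideanSpace ℝ (Fin d)) (ρ : ℝ)
    (X : Set (EuclideanSpace ℝ (Fin d))) (hX : X ⊆ Metric.sphere c ρ) (hinf : X.Infinite) :
    2 ≤ d := by
  by_contra hd
  apply hinf
  have hd' : d = 0 ∨ d = 1 := by omega
  rcases hd' with rfl | rfl
  · exact Set.toFinite X
  · have hsub : X ⊆ (fun t : ℝ => (WithLp.toLp 2 (fun _ => t) : EuclideanSpace ℝ (Fin 1))) ''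
        {c 0 + ρ, c 0 - ρ} := by
      intro x hx
      have h1 := hX hx
      rw [mem_sphere_iff_norm, EuclideanSpace.norm_eq] at h1
      simp only [Finset.univ_unique, Fin.default_eq_zero, Fin.isValue, PiLp.sub_apply,
        Real.norm_eq_abs, sq_abs, Finset.sum_singleton, Real.sqrt_sq_eq_abs] at h1
      refine ⟨x 0, ?_, ?_⟩
      · rcases abs_choice (x 0 - c 0) with h2 | h2
        · left; linarith
        · right; rw [mem_singleton_iff]; linarith
      · ext i
        fin_cases i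
        rfl
    exact ((Set.toFinite _).image _).subset hsub

/-- Full answer to Q2: a sphere of radius `ρ > 0` in `ℝ^d` contains an infinite set of points with
pairwise rational distances which lies in no hyperplane if and only if `d ≥ 2` and `ρ ^ 2` is
rational. -/
theorem result (d : ℕ) (c : EuclideanSpace ℝ (Fin d)) (ρ : ℝ) (hρ : 0 < ρ) :
    (∃ X : Set (EuclideanSpace ℝ (Fin d)), X ⊆ Metric.sphere c ρ ∧ X.Infinite ∧
      (∀ x ∈ X, ∀ y ∈ X, ∃ q : ℚ, dist x y = (q : ℝ)) ∧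
      (∀ (v : EuclideanSpace ℝ (Fin d)) (a : ℝ), v ≠ 0 → ¬ X ⊆ {x | inner ℝ v x = a})) ↔
    2 ≤ d ∧ ∃ q : ℚ, ρ ^ 2 = (q : ℝ) := by
  constructor
  · rintro ⟨X, hXs, hXinf, hXr, hXnp⟩
    refine ⟨two_le_dim d c ρ X hXs hXinf, ?_⟩
    refine rat_radius _ c ρ X hXinf.nonempty (fun x hx => mem_sphere_iff_norm.mp (hXs hx))
      (fun x hx y hy => ?_) (fun v a h => ?_)
    · obtain ⟨q, hq⟩ := hXr x hx y hy
      exact ⟨q, by rw [← dist_eq_norm]; exact hq⟩
    · by_contra hv
      exact hXnp v a hv (fun x hx => h x hx)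
  · rintro ⟨hd, K, hK⟩
    obtain ⟨n, rfl⟩ : ∃ n, d = n + 2 := ⟨d - 2, by omega⟩
    obtain ⟨X, hXinf, hXn, hXr, hXnp⟩ := exists_set n (EuclideanSpace ℝ (Fin (n + 2)))
      finrank_euclideanSpace_fin ρ hρ K hK
    refine ⟨(fun x => x + c) '' X, ?_, ?_, ?_, ?_⟩
    · rintro _ ⟨x, hx, rfl⟩
      rw [mem_sphere_iff_norm]
      simpa using hXn x hx
    · exact hXinf.image (add_left_injective c).injOn
    · rintro _ ⟨x, hx, rfl⟩ _ ⟨y, hy, rfl⟩
      obtain ⟨q, hq⟩ := hXr x hx y hy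
      exact ⟨q, by rw [dist_add_right, dist_eq_norm]; exact hq⟩
    · intro v a hv hsub
      apply hv
      apply hXnp v (a - inner ℝ v c)
      intro x hx
      have h1 : inner ℝ v (x + c) = a := hsub ⟨x, hx, rfl⟩
      rw [inner_add_right] at h1
      linarith

end Pool.Agent.Results.MP_209919_co.NonplanarRationalSets
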